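import Pool.Agent.L0h7.KF.Stm

set_option autoImplicit false

open CategoryTheory

noncomputable section

namespace Pool.Agent.L0h83.KF

open Pool.Agent.Y75.NK Pool.Agent.L0h7.KN Pool.Agent.L0h7.KF

/-- the canonical map to the field of fractions -/
def io {r : ℕ} (𝔭 : Ideal (Zp r)) [𝔭.IsPrime] : Zp r →+* FractionRing (Zp r ⧸ 𝔭) :=
  (algebraMap (Zp r ⧸ 𝔭) (FractionRing (Zp r ⧸ 𝔭))).comp (Ideal.Quotient.mk 𝔭)

lemma io_eq_zero {r : ℕ} (𝔭 : Ideal (Zp r)) [𝔭.IsPrime] (p : Zp r) : io 𝔭 p = 0 ↔ p ∈ 𝔭 := by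
  rw [io, RingHom.comp_apply, map_eq_zero_iff _ (IsFractionRing.injective _ _),
    Ideal.Quotient.eq_zero_iff_mem]

lemma io_eq {r : ℕ} (𝔭 : Ideal (Zp r)) [𝔭.IsPrime] (p q : Zp r) :
    io 𝔭 p = io 𝔭 q ↔ p - q ∈ 𝔭 := by
  rw [← io_eq_zero, map_sub, sub_eq_zero]

/-- the elements with denominator a power of `s` -/
def DD {r : ℕ} (𝔭 : Ideal (Zp r)) [𝔭.IsPrime] (s : Zp r) :
    Subring (FractionRing (Zp r ⧸ 𝔭)) where
  carrier := {x | ∃ (N : ℕ) (a : Zp r), x * io 𝔭 s ^ N = io 𝔭 a}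
  mul_mem' := by
    rintro x y ⟨N, a, ha⟩ ⟨M, b, hb⟩
    refine ⟨N + M, a * b, ?_⟩
    rw [map_mul, ← ha, ← hb, pow_add]
    ring
  one_mem' := ⟨0, 1, by simp⟩
  add_mem' := by
    rintro x y ⟨N, a, ha⟩ ⟨M, b, hb⟩
    refine ⟨N + M, a * s ^ M + b * s ^ N, ?_⟩
    rw [map_add, map_mul, map_mul, map_pow, map_pow, ← ha, ← hb, pow_add]
    ring
  zero_mem' := ⟨0, 0, by simp⟩
  neg_mem' := by
    rintro x ⟨N, a, ha⟩
    refine ⟨N, -a, ?_⟩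
    rw [map_neg, ← ha]
    ring

lemma mem_DD {r : ℕ} (𝔭 : Ideal (Zp r)) [𝔭.IsPrime] (s : Zp r)
    (x : FractionRing (Zp r ⧸ 𝔭)) :
    x ∈ DD 𝔭 s ↔ ∃ (N : ℕ) (a : Zp r), x * io 𝔭 s ^ N = io 𝔭 a := Iff.rfl

lemma io_mem {r : ℕ} (𝔭 : Ideal (Zp r)) [𝔭.IsPrime] (s p : Zp r) : io 𝔭 p ∈ DD 𝔭 s :=
  ⟨0, p, by simp⟩

lemma DD_mono {r : ℕ} (𝔭 : Ideal (Zp r)) [𝔭.IsPrime] {s t : Zp r} (h : s ∣ t) :
    DD 𝔭 s ≤ DD 𝔭 t := by
  rintro x ⟨N, a, ha⟩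
  obtain ⟨u, rfl⟩ := h
  refine ⟨N, a * u ^ N, ?_⟩
  rw [map_mul, map_mul, map_pow, ← ha, mul_pow]
  ring

lemma exists_eta {r : ℕ} (𝔭 : Ideal (Zp r)) [𝔭.IsPrime] (s : Zp r) (hs : s ∉ 𝔭)
    {k : Type} [Field k] (ρ : Zp r →+* k) (h𝔭 : ∀ p ∈ 𝔭, ρ p = 0) (hρ : ρ s ≠ 0) :
    ∃ η : DD 𝔭 s →+* k, ∀ p : Zp r, ∀ h : io 𝔭 p ∈ DD 𝔭 s, η ⟨io 𝔭 p, h⟩ = ρ p := by
  have hs' : io 𝔭 s ≠ 0 := fun h => hs ((io_eq_zero 𝔭 s).1 h)
  have hwd : ∀ (x : FractionRing (Zp r ⧸ 𝔭)) (N M : ℕ) (a b : Zp r),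
      x * io 𝔭 s ^ N = io 𝔭 a → x * io 𝔭 s ^ M = io 𝔭 b →
      ρ a / ρ s ^ N = ρ b / ρ s ^ M := by
    intro x N M a b ha hb
    rw [div_eq_div_iff (pow_ne_zero _ hρ) (pow_ne_zero _ hρ), ← map_pow, ← map_pow, ← map_mul,
      ← map_mul, ← sub_eq_zero, ← map_sub]
    refine h𝔭 _ ?_
    rw [← io_eq, map_mul, map_mul, map_pow, map_pow, ← ha, ← hb]
    ring
  have hch : ∀ x : DD 𝔭 s, ∃ y : k, ∀ (N : ℕ) (a : Zp r),
      (x : FractionRing (Zp r ⧸ 𝔭)) * io 𝔭 s ^ N = io 𝔭 a → y = ρ a / ρ s ^ N := by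
    rintro ⟨x, N, a, ha⟩
    exact ⟨ρ a / ρ s ^ N, fun M b hb => hwd x N M a b ha hb⟩
  choose f hf using hch
  refine ⟨{ toFun := f
            map_one' := ?_
            map_mul' := ?_
            map_zero' := ?_
            map_add' := ?_ }, ?_⟩
  · rw [hf 1 0 1 (by simp)]
    simp
  · rintro ⟨x, N, a, ha⟩ ⟨y, M, b, hb⟩
    have h1 := hf (⟨x, N, a, ha⟩ * ⟨y, M, b, hb⟩) (N + M) (a * b) (by
      show (x * y) * io 𝔭 s ^ (N + M) = _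
      rw [map_mul, ← ha, ← hb, pow_add]
      ring)
    rw [h1, hf ⟨x, N, a, ha⟩ N a ha, hf ⟨y, M, b, hb⟩ M b hb, map_mul, pow_add,
      div_mul_div_comm]
  · rw [hf 0 0 0 (by simp)]
    simp
  · rintro ⟨x, N, a, ha⟩ ⟨y, M, b, hb⟩
    have h1 := hf (⟨x, N, a, ha⟩ + ⟨y, M, b, hb⟩) (N + M) (a * s ^ M + b * s ^ N) (by
      show (x + y) * io 𝔭 s ^ (N + M) = _
      rw [map_add, map_mul, map_mul, map_pow, map_pow, ← ha, ← hb, pow_add]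
      ring)
    rw [h1, hf ⟨x, N, a, ha⟩ N a ha, hf ⟨y, M, b, hb⟩ M b hb, map_add, map_mul, map_mul,
      map_pow, map_pow, pow_add]
    field_simp
  · intro p h
    have h1 := hf ⟨io 𝔭 p, h⟩ 0 p (by simp)
    show f _ = _
    rw [h1]
    simp

/-- the sequence of rings -/
def seq {r : ℕ} (𝔭 : Ideal (Zp r)) [𝔭.IsPrime] (σ : ℕ → Zp r) (hσ : ∀ i j, i ≤ j → σ i ∣ σ j) :
    ℕ ⥤ RingCat.{0} where
  obj j := RingCat.of (DD 𝔭 (σ j))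
  map h := RingCat.ofHom (Subring.inclusion (DD_mono 𝔭 (hσ _ _ (leOfHom h))))
  map_id _ := by
    apply RingCat.hom_ext
    ext x
    rfl
  map_comp _ _ := by
    apply RingCat.hom_ext
    ext x
    rfl

theorem t_LOC : S_LOC := by
  classical
  intro r 𝔭 _
  have hne : Nonempty {p : Zp r // p ∉ 𝔭} :=
    ⟨⟨1, fun h => (Ideal.IsPrime.ne_top (I := 𝔭) inferInstance) ((Ideal.eq_top_iff_one 𝔭).2 h)⟩⟩
  have hcount : Countable (Zp r) := by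
    rw [← Cardinal.mk_le_aleph0_iff]
    refine (MvPolynomial.cardinalMk_le_max (σ := Fin r) (R := ℤ)).trans ?_
    simp
  obtain ⟨s, hs⟩ := exists_surjective_nat {p : Zp r // p ∉ 𝔭}
  let σ : ℕ → Zp r := fun j => ∏ i ∈ Finset.range (j + 1), (s i : Zp r)
  have hσd : ∀ i j, i ≤ j → σ i ∣ σ j := fun i j hij =>
    Finset.prod_dvd_prod_of_subset _ _ _ (by
      intro x hx
      rw [Finset.mem_range] at hx ⊢
      omega)
  have hσ0 : ∀ j, σ j ∉ 𝔭 := by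
    intro j h
    obtain ⟨i, -, hi⟩ := Ideal.IsPrime.prod_mem_iff.1 h
    exact (s i).2 hi
  refine ⟨seq 𝔭 σ hσd, fun i => RingCat.ofHom (DD 𝔭 (σ i)).subtype,
    (io 𝔭).codRestrict (DD 𝔭 (σ 0)) (fun p => io_mem 𝔭 _ p), ?_, ?_, ?_⟩
  · refine ⟨?_, ?_, ?_⟩
    · intro i j h
      rfl
    · intro b
      obtain ⟨x, y, hy, hxy⟩ := IsFractionRing.div_surjective (A := Zp r ⧸ 𝔭)
        (b : FractionRing (Zp r ⧸ 𝔭))
      obtain ⟨p, rfl⟩ := Ideal.Quotient.mk_surjective x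
      obtain ⟨q, rfl⟩ := Ideal.Quotient.mk_surjective y
      have hq : q ∉ 𝔭 := by
        intro h
        rw [← Ideal.Quotient.eq_zero_iff_mem] at h
        exact nonZeroDivisors.ne_zero hy h
      obtain ⟨i, hi⟩ := hs ⟨q, hq⟩
      have hqi : q ∣ σ i := by
        have h1 : (s i : Zp r) = q := congrArg Subtype.val hi
        rw [← h1]
        exact Finset.dvd_prod_of_mem _ (Finset.mem_range.2 (Nat.lt_succ_self i))
      refine ⟨i, ⟨b, DD_mono 𝔭 hqi ⟨1, p, ?_⟩⟩, rfl⟩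
      have h0 : io 𝔭 q ≠ 0 := fun h => hq ((io_eq_zero 𝔭 q).1 h)
      have h2 : io 𝔭 p / io 𝔭 q = b := hxy
      rw [← h2, pow_one, div_mul_cancel₀ _ h0]
    · intro i a ha
      refine ⟨i, 𝟙 i, ?_⟩
      have h1 : a = 0 := Subtype.ext ha
      rw [h1, map_zero]
  · rfl
  · intro j h
    obtain ⟨S, hS⟩ := (IsNoetherian.noetherian 𝔭 : 𝔭.FG)
    refine ⟨insert (σ j) S, ?_⟩
    intro k _ ρ hρ
    have h1 : ρ (σ j) ≠ 0 := fun h0 =>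
      hσ0 j ((hρ _ (Finset.mem_insert_self _ _)).2 h0)
    have h2 : ∀ p ∈ 𝔭, ρ p = 0 := by
      have h3 : 𝔭 ≤ RingHom.ker ρ := by
        rw [← hS]
        refine Ideal.span_le.2 ?_
        intro p hp
        exact (hρ p (Finset.mem_insert_of_mem hp)).1 (hS ▸ Ideal.subset_span hp)
      exact fun p hp => h3 hp
    obtain ⟨η, hη⟩ := exists_eta 𝔭 (σ j) (hσ0 j) ρ h2 h1
    refine ⟨η, ?_⟩
    refine RingHom.ext fun p => ?_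
    exact hη p (io_mem 𝔭 _ p)

end Pool.Agent.L0h83.KF
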